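import Pool.Agent.LibAC84.Main

/-!
The algebra of the cycles `N_* B + g`: homologically and Abel-Jacobi trivial combinations are torsion.
-/

open MvPolynomial Matrix

set_option linter.unusedSectionVars false

namespace Pool.Agent.LibAC84

/-! ### bordered determinants -/

section border
variable {R D K : Type} [CommRing K] [Fintype R] [DecidableEq R] [Fintype D] [DecidableEq D]

theorem det_border (M N : Matrix R D K) (i k : R) :
    (Mᵀ * N).det * ((fromCols M (replicateCol Unit (Pi.single i 1)))ᵀ *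
      fromCols N (replicateCol Unit (Pi.single k 1))).det =
    (Mᵀ * N).det * ((Mᵀ * N).det * (if i = k then 1 else 0) -
      ∑ b, ∑ a, N i a * (Mᵀ * N).adjugate a b * M k b) := by
  set A := Mᵀ * N with hA
  set q : Matrix D Unit K := fun b _ => M k b with hq
  set r : Matrix Unit D K := fun _ a => N i a with hr
  set s : Matrix Unit Unit K := fun _ _ => if i = k then 1 else 0 with hs
  have h1 : (fromCols M (replicateCol Unit (Pi.single i 1)))ᵀ *
      fromCols N (replicateCol Unit (Pi.single k 1)) = fromBlocks A q r s := by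
    rw [transpose_fromCols, fromRows_mul_fromCols]
    congr 1
    · ext b u
      rw [Matrix.mul_apply, Finset.sum_eq_single k]
      · simp [hq]
      · intro i' _ hi'
        simp [hi']
      · intro h; exact absurd (Finset.mem_univ k) h
    · ext u a
      rw [Matrix.mul_apply, Finset.sum_eq_single i]
      · simp [hr]
      · intro i' _ hi'
        simp [hi']
      · intro h; exact absurd (Finset.mem_univ i) h
    · ext u a
      rw [Matrix.mul_apply, Finset.sum_eq_single i]
      · simp [hs, Pi.single_apply]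
      · intro i' _ hi'
        simp [hi']
      · intro h; exact absurd (Finset.mem_univ i) h
  have h2 : fromBlocks A q r s * fromBlocks 1 (-(A.adjugate * q)) 0 (A.det • (1 : Matrix Unit Unit K)) =
      fromBlocks A 0 r (A.det • s - r * A.adjugate * q) := by
    rw [fromBlocks_multiply]
    congr 1
    · simp
    · rw [Matrix.mul_neg, ← Matrix.mul_assoc, Matrix.mul_adjugate, Matrix.smul_mul,
        Matrix.one_mul, Matrix.mul_smul, Matrix.mul_one, neg_add_cancel]
    · simp
    · rw [Matrix.mul_neg, ← Matrix.mul_assoc, Matrix.mul_smul, Matrix.mul_one]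
      abel
  have h3 := congrArg Matrix.det h2
  rw [det_mul, det_fromBlocks_zero₂₁, det_fromBlocks_zero₁₂, det_one, one_mul,
    Matrix.det_unique (A.det • s - r * A.adjugate * q),
    Matrix.det_unique (A.det • (1 : Matrix Unit Unit K))] at h3
  rw [h1]
  rw [show (A.det • (1 : Matrix Unit Unit K)) default default = A.det by simp] at h3
  rw [mul_comm, h3]
  congr 1
  rw [Matrix.sub_apply, Matrix.smul_apply, smul_eq_mul, Matrix.mul_apply]
  congr 1
  refine Finset.sum_congr rfl fun b _ => ?_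
  rw [Matrix.mul_apply, Finset.sum_mul]

end border

variable {C R D : Type} [DecidableEq C] [Fintype R] [DecidableEq R] [Fintype D] [DecidableEq D]

/-- the product of the two determinants -/
def dd (M N : Matrix R D ℤ) (i k : R) : ℤ :=
  (Mᵀ * N).det * ((fromCols M (replicateCol Unit (Pi.single i 1)))ᵀ *
      fromCols N (replicateCol Unit (Pi.single k 1))).det

theorem ev_Bpol (ρ : R → C) (τ : D → C) (c : C) (N : Matrix R D ℤ) (hN : Blk ρ τ N) (i k : R)
    (hk : ρ k = c) (M : Matrix R D ℤ) :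
    ev (toQ M) (Bpol τ c (toQ N) i k) = (dd (pr ρ τ M) N i k : ℚ) := by
  have hNQ : Blk ρ τ (toQ N) := fun i a h => by
    rw [toQ, Matrix.map_apply, hN i a h, Int.cast_zero]
  set A : Matrix D D ℤ := (pr ρ τ M)ᵀ * N with hA
  have hprQ : pr ρ τ (toQ M) = toQ (pr ρ τ M) := by
    ext i a
    by_cases h : ρ i = τ a
    · rw [pr_pos _ h, toQ, toQ, Matrix.map_apply, Matrix.map_apply, pr_pos _ h]
    · rw [pr_neg _ h, toQ, Matrix.map_apply, pr_neg _ h, Int.cast_zero]
  have hAQ : pr τ τ ((toQ M)ᵀ * toQ N) = toQ A := by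
    rw [pr_transpose_mul hNQ, hprQ, hA, toQ_mul]
    rfl
  have hadj : ∀ a b, (toQ A).adjugate a b = ((A.adjugate a b : ℤ) : ℚ) := by
    intro a b
    have := (Int.castRingHom ℚ).map_adjugate A
    have h2 := congrFun (congrFun this a) b
    exact h2.symm
  rw [dd, det_border, ← hA, Bpol]
  have e1 : ev (toQ M) (if i = k then sub (fun t s => subA (toQ N) s t) (Hpol τ) else 0) =
      (A.det : ℚ) ^ 2 * (if i = k then 1 else 0) := by
    by_cases h : i = k
    · rw [if_pos h, if_pos h, mul_one, eval_subT, Hpol, map_pow, eval_det, hAQ, toQ_det]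
    · rw [if_neg h, if_neg h, mul_zero, ev, map_zero]
  have e2 : ev (toQ M) (∑ b, ∑ a, if τ b = c then
      MvPolynomial.C (toQ N i a) * (X (k, b) * sub (fun t s => subA (toQ N) s t) (Kpol τ a b))
        else 0) = (A.det : ℚ) * ∑ b, ∑ a, (N i a : ℚ) * (A.adjugate a b : ℤ) * (pr ρ τ M k b : ℤ) := by
    rw [ev, map_sum, Finset.mul_sum]
    refine Finset.sum_congr rfl fun b _ => ?_
    rw [map_sum, Finset.mul_sum]
    refine Finset.sum_congr rfl fun a _ => ?_
    by_cases hb : τ b = c
    · rw [if_pos hb, map_mul, map_mul, eval_C, eval_X]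
      have h5 := eval_subT (toQ N) (toQ M) (Kpol τ a b)
      rw [ev] at h5
      rw [h5, Kpol, map_mul, eval_det, eval_adjugate, hAQ, toQ_det, hadj, pr_pos _ (hk.trans hb.symm)]
      simp only [toQ, Matrix.map_apply]
      ring
    · rw [if_neg hb, map_zero, pr_neg _ (fun h => hb (h.symm.trans hk))]
      simp
  have e3 : ∀ Q Q' : MvPolynomial (R × D) ℚ, ev (toQ M) (Q - Q') = ev (toQ M) Q - ev (toQ M) Q' :=
    fun Q Q' => map_sub _ _ _
  rw [e3, e1, e2]
  push_cast
  split_ifs
  · ring
  · ring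

/-! ### families of cycle classes -/

/-- the element `x` of `G c`, as an element of `G c'` if `c = c'`, and `0` otherwise -/
def cst {G : C → Type} [∀ c, AddCommGroup (G c)] (c c' : C) (x : G c) : G c' :=
  if h : c = c' then h ▸ x else 0

/-- the properties of the classes `F N g` of the cycles `N_* B + g` -/
structure Fam {G : C → Type} [∀ c, AddCommGroup (G c)] {H : Type} [AddCommGroup H] (ρ : R → C)
    (τ : D → C) (F : Matrix R D ℤ → (∀ i, G (ρ i)) → H) : Prop where
  par : ∀ N, Blk ρ τ N → ∀ a (u v : R → ℤ), (∀ i, ρ i ≠ τ a → u i = 0) →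
    (∀ i, ρ i ≠ τ a → v i = 0) → ∀ g, F (N.updateCol a (u + v)) g + F (N.updateCol a (u - v)) g =
      (2 : ℤ) • F (N.updateCol a u) g + (2 : ℤ) • F (N.updateCol a v) g
  col : ∀ N, Blk ρ τ N → ∀ a b, a ≠ b → τ a = τ b → ∀ g,
    F (N.updateCol b (fun i => N i b + N i a)) g = F N g
  tr : ∀ N, Blk ρ τ N → ∀ a (c : G (τ a)), F N (fun i => N i a • cst (τ a) (ρ i) c) = F N 0
  add : ∀ N, Blk ρ τ N → ∀ g h, IsOfFinAddOrder (F N (g + h) - F N g - F N h + F N 0)

section fam
variable {G : C → Type} [∀ c, AddCommGroup (G c)] {H : Type} [AddCommGroup H] {ρ : R → C}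
  {τ : D → C} {F : Matrix R D ℤ → (∀ i, G (ρ i)) → H} (hF : Fam ρ τ F) (μ : H →+ ℚ)

include hF in
theorem Fam.good (g : ∀ i, G (ρ i)) : Good ρ τ (fun N => μ (F N g)) where
  par := by
    intro N hN a u v hu hv
    have := congrArg μ (hF.par N hN a u v hu hv g)
    rw [map_add, map_add, map_zsmul, map_zsmul] at this
    simpa using this
  col := by
    intro N hN a b hab h
    exact congrArg μ (hF.col N hN a b hab h g)

theorem Good.sub {f f' : Matrix R D ℤ → ℚ} (hf : Good ρ τ f) (hf' : Good ρ τ f') :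
    Good ρ τ (fun N => f N - f' N) where
  par := by
    intro N hN a u v hu hv
    have h1 := hf.par N hN a u v hu hv
    have h2 := hf'.par N hN a u v hu hv
    linarith
  col := by
    intro N hN a b hab h
    rw [hf.col N hN a b hab h, hf'.col N hN a b hab h]

theorem main_H {J : Type} (s : Finset J) (m : J → ℤ) (N : J → Matrix R D ℤ)
    (hN : ∀ j ∈ s, Blk ρ τ (N j))
    (hom : ∀ M : Matrix R D ℤ, Blk ρ τ M → ∑ j ∈ s, m j * (Mᵀ * N j).det ^ 2 = 0)
    {f : Matrix R D ℤ → ℚ} (hf : Good ρ τ f) : ∑ j ∈ s, (m j : ℚ) * f (N j) = 0 := by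
  obtain ⟨P, hP⟩ := hf.exists_poly
  have hNQ : ∀ j ∈ s, Blk ρ τ (toQ (N j)) := fun j hj i a h => by
    rw [toQ, Matrix.map_apply, hN j hj i a h, Int.cast_zero]
  have hzero : ∑ j ∈ s, (m j : ℚ) • MvPolynomial.C (R := ℚ) (1 : ℚ) *
      LibAC84.sub (fun t s => subA (toQ (N j)) s t) (Hpol τ) = 0 := by
    refine ext_int _ _ fun z => ?_
    obtain ⟨M, hM⟩ : ∃ M : Matrix R D ℤ, ∀ p, z p = M p.1 p.2 :=
      ⟨fun i a => z (i, a), fun _ => rfl⟩
    have hz : (fun p => ((z p : ℤ) : ℚ)) = fun p : R × D => toQ M p.1 p.2 := by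
      funext p
      rw [hM]; rfl
    rw [hz, map_sum, map_zero]
    have h1 := congrArg (Int.cast : ℤ → ℚ) (hom (pr ρ τ M) (blk_pr M))
    simp only [Int.cast_sum, Int.cast_mul, Int.cast_pow, Int.cast_zero] at h1
    rw [← h1]
    refine Finset.sum_congr rfl fun j hj => ?_
    have h2 := eval_subT (toQ (N j)) (toQ M) (Hpol τ)
    rw [ev] at h2
    rw [map_mul, smul_eval, eval_C, h2, Hpol, map_pow, eval_det, pr_transpose_mul (hNQ j hj)]
    have h3 : (pr ρ τ (toQ M))ᵀ * toQ (N j) = toQ ((pr ρ τ M)ᵀ * N j) := by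
      rw [toQ_mul]
      congr 1
      ext a i
      rw [transpose_apply]
      by_cases h : ρ i = τ a
      · rw [pr_pos _ h, toQ, toQ, Matrix.map_apply, Matrix.map_apply, transpose_apply, pr_pos _ h]
      · rw [pr_neg _ h, toQ, Matrix.map_apply, transpose_apply, pr_neg _ h, Int.cast_zero]
    rw [h3, toQ_det, mul_one]
  have h4 := congrArg (fis P) hzero
  rw [fis_sum_right, fis_zero_right] at h4
  have h5 : ∀ j ∈ s, fis P ((m j : ℚ) • MvPolynomial.C (R := ℚ) (1 : ℚ) *
      LibAC84.sub (fun t s => subA (toQ (N j)) s t) (Hpol τ)) =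
      (m j : ℚ) * f (N j) * fis (Hpol τ) (Hpol τ) := by
    intro j hj
    rw [map_one, smul_mul_assoc, one_mul, fis_smul_right, fis_H hf hP _ (hNQ j hj), hP,
      pr_of_blk (hN j hj)]
    ring
  rw [Finset.sum_congr rfl h5, ← Finset.sum_mul] at h4
  rcases mul_eq_zero.1 h4 with h6 | h6
  · exact h6
  · exact absurd h6 (fis_self_pos _ (Hpol_ne_zero τ)).ne'

/-- the functions `f N = μ (F N g) - μ (F N 0)` -/
def phi (F : Matrix R D ℤ → (∀ i, G (ρ i)) → H) (μ : H →+ ℚ) (N : Matrix R D ℤ)
    (g : ∀ i, G (ρ i)) : ℚ := μ (F N g) - μ (F N 0)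

include hF in
theorem phi_add (N : Matrix R D ℤ) (hN : Blk ρ τ N) (g h : ∀ i, G (ρ i)) :
    phi F μ N (g + h) = phi F μ N g + phi F μ N h := by
  have h1 := map_torsion μ (hF.add N hN g h)
  rw [map_add, map_sub, map_sub] at h1
  unfold phi
  linarith

theorem phi_zero (N : Matrix R D ℤ) : phi F μ N 0 = 0 := sub_self _

include hF in
/-- `phi` as a homomorphism -/
theorem phi_hom (N : Matrix R D ℤ) (hN : Blk ρ τ N) :
    ∃ l : (∀ i, G (ρ i)) →+ ℚ, ∀ g, l g = phi F μ N g :=
  ⟨{ toFun := phi F μ N, map_zero' := phi_zero μ N, map_add' := phi_add hF μ N hN },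
    fun _ => rfl⟩

theorem cst_add (c c' : C) (x y : G c) : cst c c' (x + y) = cst c c' x + cst c c' y := by
  unfold cst
  split_ifs with h
  · subst h; rfl
  · rw [add_zero]

theorem cst_self (c : C) (x : G c) : cst c c x = x := by
  unfold cst
  rw [dif_pos rfl]

theorem cst_ne {c c' : C} (h : c ≠ c') (x : G c) : cst c c' x = 0 := dif_neg h

theorem cst_cst {c c' : C} (h : c = c') (x : G c) : cst c' c (cst c c' x) = x := by
  subst h
  rw [cst_self, cst_self]

theorem cst_zsmul (c c' : C) (n : ℤ) (x : G c) : cst c c' (n • x) = n • cst c c' x := by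
  by_cases h : c = c'
  · subst h
    rw [cst_self, cst_self]
  · rw [cst_ne h, cst_ne h, smul_zero]

theorem single_add' {i : R} (x y : G (ρ i)) :
    (Pi.single i (x + y) : ∀ i, G (ρ i)) = Pi.single i x + Pi.single i y := by
  funext j
  by_cases h : j = i
  · subst h
    rw [Pi.add_apply, Pi.single_eq_same, Pi.single_eq_same, Pi.single_eq_same]
  · rw [Pi.add_apply, Pi.single_eq_of_ne h, Pi.single_eq_of_ne h, Pi.single_eq_of_ne h, add_zero]

include hF in
/-- the function `N ↦ phi N (h in the row i)` is good -/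
theorem good_phi (g : ∀ i, G (ρ i)) : Good ρ τ (fun N => phi F μ N g) :=
  (hF.good μ g).sub (hF.good μ 0)

include hF in
theorem main_AJ {J : Type} (s : Finset J) (m : J → ℤ) (N : J → Matrix R D ℤ)
    (g : J → ∀ i, G (ρ i)) (hN : ∀ j ∈ s, Blk ρ τ (N j)) (c : C)
    (AJ : ∀ M : Matrix R D ℤ, Blk ρ τ M → ∀ i, ρ i = c → IsOfFinAddOrder (∑ j ∈ s,
      ∑ k, (m j * dd M (N j) i k) • cst (ρ k) c (g j k))) :
    ∑ j ∈ s, ∑ k, (if ρ k = c then (m j : ℚ) * phi F μ (N j) (Pi.single k (g j k)) else 0) = 0 := by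
  -- the polynomials
  have hex : ∀ (i : R) (h : G c), ∃ P : MvPolynomial (R × D) ℚ, ∀ N : Matrix R D ℤ,
      ev (toQ N) P = phi F μ (pr ρ τ N) (Pi.single i (cst c (ρ i) h)) := fun i h =>
    (good_phi hF μ (Pi.single i (cst c (ρ i) h))).exists_poly
  choose P hP using hex
  have hPadd : ∀ i h h', P i (h + h') = P i h + P i h' := by
    intro i h h'
    refine ext_int _ _ fun z => ?_
    obtain ⟨M, hM⟩ : ∃ M : Matrix R D ℤ, ∀ p, z p = M p.1 p.2 :=
      ⟨fun i a => z (i, a), fun _ => rfl⟩
    have hz : (fun p => ((z p : ℤ) : ℚ)) = fun p : R × D => toQ M p.1 p.2 := by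
      funext p
      rw [hM]; rfl
    rw [hz, map_add]
    have h1 := hP i (h + h') M
    rw [cst_add, single_add', phi_add hF μ _ (blk_pr M), ← hP, ← hP] at h1
    exact h1
  have hP0 : ∀ i h, ρ i ≠ c → P i h = 0 := by
    intro i h hi
    refine ext_int _ _ fun z => ?_
    obtain ⟨M, hM⟩ : ∃ M : Matrix R D ℤ, ∀ p, z p = M p.1 p.2 :=
      ⟨fun i a => z (i, a), fun _ => rfl⟩
    have hz : (fun p => ((z p : ℤ) : ℚ)) = fun p : R × D => toQ M p.1 p.2 := by
      funext p
      rw [hM]; rfl
    rw [hz, map_zero]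
    have h1 := hP i h M
    rw [cst_ne (Ne.symm hi), Pi.single_zero, phi_zero] at h1
    exact h1
  have hrel : ∀ (h : G c) (a : D), τ a = c → ∑ i, X (i, a) * P i h = 0 := by
    intro h a ha
    refine ext_int _ _ fun z => ?_
    obtain ⟨M, hM⟩ : ∃ M : Matrix R D ℤ, ∀ p, z p = M p.1 p.2 :=
      ⟨fun i a => z (i, a), fun _ => rfl⟩
    have hz : (fun p => ((z p : ℤ) : ℚ)) = fun p : R × D => toQ M p.1 p.2 := by
      funext p
      rw [hM]; rfl
    rw [hz, map_zero, map_sum]
    obtain ⟨l, hl⟩ := phi_hom hF μ (pr ρ τ M) (blk_pr M)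
    have h1 : ∀ i, eval (fun p => toQ M p.1 p.2) (X (i, a) * P i h) =
        l (Pi.single i (pr ρ τ M i a • cst c (ρ i) h)) := by
      intro i
      rw [map_mul, eval_X]
      have h2 := hP i h M
      rw [ev] at h2
      rw [h2, ← hl, toQ, Matrix.map_apply]
      by_cases hi : ρ i = c
      · rw [pr_pos _ (hi.trans ha.symm), Pi.single_smul, map_zsmul, zsmul_eq_mul]
      · rw [cst_ne (Ne.symm hi), smul_zero, Pi.single_zero, map_zero, mul_zero]
    rw [Finset.sum_congr rfl fun i _ => h1 i, ← map_sum, hl]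
    have h3 : ∑ i, (Pi.single i (pr ρ τ M i a • cst c (ρ i) h) : ∀ i, G (ρ i)) =
        fun i => pr ρ τ M i a • cst c (ρ i) h := by
      rw [Finset.univ_sum_single]
    rw [h3]
    subst ha
    unfold phi
    rw [hF.tr _ (blk_pr M) a h, sub_self]
  have hNQ : ∀ j ∈ s, Blk ρ τ (toQ (N j)) := fun j hj i a h => by
    rw [toQ, Matrix.map_apply, hN j hj i a h, Int.cast_zero]
  -- the elements of `G c`
  set x : J → R → G c := fun j k => cst (ρ k) c (g j k) with hx
  have hxP : ∀ j ∈ s, ∀ k, ρ k = c →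
      phi F μ (N j) (Pi.single k (g j k)) = ev (toQ (N j)) (P k (x j k)) := by
    intro j hj k hk
    rw [hP, pr_of_blk (hN j hj), hx]
    simp only
    rw [cst_cst hk]
  have hkey : ∀ j ∈ s, ∀ k, kap τ c * ev (toQ (N j)) (P k (x j k)) =
      ∑ i, fis (P i (x j k)) (Bpol τ c (toQ (N j)) i k) := fun j hj k =>
    (fis_AJ (f := fun i N => phi F μ N (Pi.single i (cst c (ρ i) (x j k))))
      (fun i => good_phi hF μ _) (P := fun i => P i (x j k)) (fun i => hP i (x j k))
      (fun i hi => hP0 i _ hi) (fun a ha => hrel (x j k) a ha) (toQ (N j)) (hNQ j hj) k).symm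
  have hsum : kap τ c * ∑ j ∈ s, ∑ k,
      (if ρ k = c then (m j : ℚ) * phi F μ (N j) (Pi.single k (g j k)) else 0) =
      ∑ i, ∑ j ∈ s, ∑ k, (if ρ k = c then (m j : ℚ) *
        fis (P i (x j k)) (Bpol τ c (toQ (N j)) i k) else 0) := by
    rw [Finset.mul_sum, Finset.sum_comm]
    refine Finset.sum_congr rfl fun j hj => ?_
    rw [Finset.mul_sum, Finset.sum_comm]
    refine Finset.sum_congr rfl fun k _ => ?_
    by_cases hk : ρ k = c
    · simp only [if_pos hk]
      rw [hxP j hj k hk, mul_left_comm, hkey j hj k, Finset.mul_sum]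
    · simp only [if_neg hk]
      simp
  have hzero : ∀ i, ∑ j ∈ s, ∑ k, (if ρ k = c then (m j : ℚ) *
        fis (P i (x j k)) (Bpol τ c (toQ (N j)) i k) else 0) = 0 := by
    intro i
    by_cases hi : ρ i = c
    · set S : Finset ((R × D) →₀ ℕ) := s.biUnion fun j => Finset.univ.biUnion fun k =>
        (Bpol τ c (toQ (N j)) i k).support with hS
      have h1 : ∀ j ∈ s, ∀ k, fis (P i (x j k)) (Bpol τ c (toQ (N j)) i k) =
          ∑ α ∈ S, fac α * coeff α (P i (x j k)) * coeff α (Bpol τ c (toQ (N j)) i k) := by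
        intro j hj k
        refine fis_eq _ _ S fun α hα => ?_
        rw [hS, Finset.mem_biUnion]
        exact ⟨j, hj, Finset.mem_biUnion.2 ⟨k, Finset.mem_univ k, hα⟩⟩
      have h2 : ∀ α, ∑ j ∈ s, ∑ k, (if ρ k = c then (m j : ℚ) *
          (fac α * coeff α (P i (x j k)) * coeff α (Bpol τ c (toQ (N j)) i k)) else 0) = 0 := by
        intro α
        obtain ⟨l, hl⟩ : ∃ l : G c →+ ℚ, ∀ h, l h = coeff α (P i h) :=
          ⟨{ toFun := fun h => coeff α (P i h)
             map_zero' := by
              have := hPadd i 0 0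
              rw [add_zero] at this
              have h3 : P i 0 = 0 := by simpa using this
              rw [h3, coeff_zero]
             map_add' := fun h h' => by rw [hPadd, coeff_add] }, fun _ => rfl⟩
        have h3 : ∑ j ∈ s, ∑ k, (if ρ k = c then
            ((m j : ℚ) * l (x j k)) • Bpol τ c (toQ (N j)) i k else 0) = 0 := by
          refine ext_int _ _ fun z => ?_
          obtain ⟨M, hM⟩ : ∃ M : Matrix R D ℤ, ∀ p, z p = M p.1 p.2 :=
            ⟨fun i a => z (i, a), fun _ => rfl⟩
          have hz : (fun p => ((z p : ℤ) : ℚ)) = fun p : R × D => toQ M p.1 p.2 := by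
            funext p
            rw [hM]; rfl
          rw [hz, map_sum, map_zero]
          have h4 := map_torsion l (AJ (pr ρ τ M) (blk_pr M) i hi)
          rw [map_sum] at h4
          rw [← h4]
          refine Finset.sum_congr rfl fun j hj => ?_
          rw [map_sum, map_sum]
          refine Finset.sum_congr rfl fun k _ => ?_
          rw [map_zsmul, zsmul_eq_mul]
          by_cases hk : ρ k = c
          · rw [if_pos hk, smul_eval]
            have h5 := ev_Bpol ρ τ c (N j) (hN j hj) i k hk M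
            rw [ev] at h5
            rw [h5]
            push_cast
            ring
          · rw [if_neg hk, map_zero, cst_ne hk, map_zero, mul_zero]
        have h4 := congrArg (coeff α) h3
        rw [coeff_zero, coeff_sum] at h4
        have h5 : ∑ j ∈ s, ∑ k, (if ρ k = c then (m j : ℚ) *
            (fac α * coeff α (P i (x j k)) * coeff α (Bpol τ c (toQ (N j)) i k)) else 0) =
            fac α * ∑ j ∈ s, coeff α (∑ k, (if ρ k = c then
              ((m j : ℚ) * l (x j k)) • Bpol τ c (toQ (N j)) i k else 0)) := by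
          rw [Finset.mul_sum]
          refine Finset.sum_congr rfl fun j _ => ?_
          rw [coeff_sum, Finset.mul_sum]
          refine Finset.sum_congr rfl fun k _ => ?_
          by_cases hk : ρ k = c
          · rw [if_pos hk, if_pos hk, coeff_smul, hl, smul_eq_mul]
            ring
          · rw [if_neg hk, if_neg hk, coeff_zero, mul_zero]
        rw [h5, h4, mul_zero]
      have h6 : ∑ j ∈ s, ∑ k, (if ρ k = c then (m j : ℚ) *
          fis (P i (x j k)) (Bpol τ c (toQ (N j)) i k) else 0) =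
          ∑ α ∈ S, ∑ j ∈ s, ∑ k, (if ρ k = c then (m j : ℚ) *
          (fac α * coeff α (P i (x j k)) * coeff α (Bpol τ c (toQ (N j)) i k)) else 0) := by
        rw [Finset.sum_comm (s := S)]
        refine Finset.sum_congr rfl fun j hj => ?_
        rw [Finset.sum_comm (s := S)]
        refine Finset.sum_congr rfl fun k _ => ?_
        by_cases hk : ρ k = c
        · simp only [if_pos hk]
          rw [h1 j hj k, Finset.mul_sum]
        · simp only [if_neg hk]
          simp
      rw [h6]
      exact Finset.sum_eq_zero fun α _ => h2 α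
    · refine Finset.sum_eq_zero fun j _ => ?_
      refine Finset.sum_eq_zero fun k _ => ?_
      rw [hP0 i _ hi, fis_zero_left, mul_zero, ite_self]
  rw [Finset.sum_eq_zero fun i _ => hzero i] at hsum
  rcases mul_eq_zero.1 hsum with h | h
  · exact absurd h (kap_pos τ c).ne'
  · exact h

include hF in
/-- **Homologically and Abel-Jacobi trivial combinations are torsion.** -/
theorem main {J : Type} (s : Finset J) (m : J → ℤ) (N : J → Matrix R D ℤ)
    (g : J → ∀ i, G (ρ i)) (hN : ∀ j ∈ s, Blk ρ τ (N j))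
    (hom : ∀ M : Matrix R D ℤ, Blk ρ τ M → ∑ j ∈ s, m j * (Mᵀ * N j).det ^ 2 = 0)
    (AJ : ∀ M : Matrix R D ℤ, Blk ρ τ M → ∀ (c : C) (z : R → ℤ), (∀ i, ρ i ≠ c → z i = 0) →
      IsOfFinAddOrder (∑ j ∈ s, (m j * (Mᵀ * N j).det) • ∑ i, ((fromCols M (replicateCol Unit z))ᵀ *
        fromCols (N j) (replicateCol Unit (Pi.single i 1))).det • cst (ρ i) c (g j i))) :
    IsOfFinAddOrder (∑ j ∈ s, m j • F (N j) (g j)) := by
  by_contra hcon
  obtain ⟨μ, hμ⟩ := exists_hom _ hcon
  apply hμ
  rw [map_sum]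
  have h1 := main_H s m N hN hom (hF.good μ 0)
  have h2 : ∑ j ∈ s, (m j : ℚ) * phi F μ (N j) (g j) = 0 := by
    have h3 : ∀ j ∈ s, (m j : ℚ) * phi F μ (N j) (g j) = ∑ c ∈ Finset.univ.image ρ, ∑ k,
        (if ρ k = c then (m j : ℚ) * phi F μ (N j) (Pi.single k (g j k)) else 0) := by
      intro j hj
      obtain ⟨l, hl⟩ := phi_hom hF μ (N j) (hN j hj)
      rw [Finset.sum_comm]
      have h4 : ∀ k, ∑ c ∈ Finset.univ.image ρ,
          (if ρ k = c then (m j : ℚ) * phi F μ (N j) (Pi.single k (g j k)) else 0) =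
          (m j : ℚ) * l (Pi.single k (g j k)) := by
        intro k
        rw [Finset.sum_ite_eq (Finset.univ.image ρ) (ρ k),
          if_pos (Finset.mem_image_of_mem ρ (Finset.mem_univ k)), hl]
      rw [Finset.sum_congr rfl fun k _ => h4 k, ← Finset.mul_sum, ← map_sum,
        Finset.univ_sum_single, hl]
    rw [Finset.sum_congr rfl h3, Finset.sum_comm]
    refine Finset.sum_eq_zero fun c _ => ?_
    refine main_AJ hF μ s m N g hN c fun M hM i hi => ?_
    have h5 := AJ M hM c (Pi.single i 1) (fun i' hi' => by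
      rw [Pi.single_eq_of_ne]
      rintro rfl
      exact hi' hi)
    convert h5 using 1
    refine Finset.sum_congr rfl fun j _ => ?_
    rw [Finset.smul_sum]
    refine Finset.sum_congr rfl fun k _ => ?_
    rw [dd, smul_smul, mul_assoc]
  rw [← add_zero (0 : ℚ)]
  nth_rewrite 1 [← h1]
  rw [← h2, ← Finset.sum_add_distrib]
  refine Finset.sum_congr rfl fun j _ => ?_
  rw [map_zsmul, zsmul_eq_mul, phi]
  ring

end fam

end Pool.Agent.LibAC84
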