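import Pool.Agent.LibAC84.Fis
import Pool.Agent.LibAC84.Interp

/-!
Polynomial functions of block matrices which are invariant under column operations and homogeneous
of degree two in every column.
-/

open MvPolynomial Matrix

set_option linter.unusedSectionVars false

namespace Pool.Agent.LibAC84

variable {C R D : Type} [DecidableEq C] [Fintype R] [DecidableEq R] [Fintype D] [DecidableEq D]

/-- block matrices -/
def Blk (ρ : R → C) (τ : D → C) {K : Type} [Zero K] (N : Matrix R D K) : Prop :=
  ∀ i a, ρ i ≠ τ a → N i a = 0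

/-- the block part of a matrix -/
def pr (ρ : R → C) (τ : D → C) {K : Type} [Zero K] (N : Matrix R D K) : Matrix R D K :=
  fun i a => if ρ i = τ a then N i a else 0

section
variable {ρ : R → C} {τ : D → C} {K : Type}

theorem blk_pr [Zero K] (N : Matrix R D K) : Blk ρ τ (pr ρ τ N) := fun i a h => by
  simp [pr, h]

theorem pr_of_blk [Zero K] {N : Matrix R D K} (h : Blk ρ τ N) : pr ρ τ N = N := by
  funext i a
  by_cases h1 : ρ i = τ a
  · simp [pr, h1]
  · simp [pr, h1, h i a h1]

theorem Blk.mul [NonUnitalNonAssocSemiring K] {N : Matrix R D K} {T : Matrix D D K}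
    (h : Blk ρ τ N) (hT : Blk τ τ T) : Blk ρ τ (N * T) := by
  intro i b hib
  rw [Matrix.mul_apply]
  refine Finset.sum_eq_zero fun a _ => ?_
  by_cases h1 : ρ i = τ a
  · rw [hT a b (fun h2 => hib (h1.trans h2)), mul_zero]
  · rw [h i a h1, zero_mul]

theorem pr_mul [NonUnitalNonAssocSemiring K] (N : Matrix R D K) {T : Matrix D D K}
    (hT : Blk τ τ T) : pr ρ τ (N * T) = pr ρ τ N * T := by
  funext i b
  rw [Matrix.mul_apply]
  by_cases hib : ρ i = τ b
  · simp only [pr, if_pos hib]
    rw [Matrix.mul_apply]
    refine Finset.sum_congr rfl fun a _ => ?_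
    by_cases h1 : ρ i = τ a
    · rw [if_pos h1]
    · rw [if_neg h1, hT a b (fun h2 => h1 (hib.trans h2.symm)), mul_zero, zero_mul]
  · simp only [pr, if_neg hib]
    symm
    refine Finset.sum_eq_zero fun a _ => ?_
    by_cases h1 : ρ i = τ a
    · rw [hT a b (fun h2 => hib (h1.trans h2)), mul_zero]
    · rw [if_neg h1, zero_mul]

end

/-- evaluation of a polynomial at a matrix -/
noncomputable def ev (N : Matrix R D ℚ) (P : MvPolynomial (R × D) ℚ) : ℚ :=
  eval (fun p => N p.1 p.2) P

theorem eval_aeval' {I J : Type} (z : J → ℚ) (φ : I → MvPolynomial J ℚ) (P : MvPolynomial I ℚ) :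
    eval z (aeval φ P) = eval (fun p => eval z (φ p)) P := by
  induction P using MvPolynomial.induction_on with
  | C a => simp
  | add P Q h h' => simp only [map_add, h, h']
  | mul_X P s h => simp only [map_mul, h, aeval_X, eval_X]

/-- an integer matrix as a rational matrix -/
def toQ {R D : Type} (N : Matrix R D ℤ) : Matrix R D ℚ := N.map (Int.cast : ℤ → ℚ)

theorem toQ_mul {R D E : Type} [Fintype D] (N : Matrix R D ℤ) (T : Matrix D E ℤ) :
    toQ (N * T) = toQ N * toQ T := by
  unfold toQ
  exact Matrix.map_mul (f := Int.castRingHom ℚ)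

theorem toQ_det (T : Matrix D D ℤ) : (toQ T).det = (T.det : ℚ) := by
  unfold toQ
  exact ((Int.castRingHom ℚ).map_det T).symm

/-- the properties of a function on block matrices -/
structure Good (ρ : R → C) (τ : D → C) (f : Matrix R D ℤ → ℚ) : Prop where
  par : ∀ N, Blk ρ τ N → ∀ a (u v : R → ℤ), (∀ i, ρ i ≠ τ a → u i = 0) →
    (∀ i, ρ i ≠ τ a → v i = 0) → f (N.updateCol a (u + v)) + f (N.updateCol a (u - v)) =
      2 * f (N.updateCol a u) + 2 * f (N.updateCol a v)
  col : ∀ N, Blk ρ τ N → ∀ a b, a ≠ b → τ a = τ b →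
    f (N.updateCol b (fun i => N i b + N i a)) = f N

section good
variable {ρ : R → C} {τ : D → C} {f : Matrix R D ℤ → ℚ} (hf : Good ρ τ f)
include hf

theorem Good.cub (N : Matrix R D ℤ) (hN : Blk ρ τ N) (a : D) (u v : R → ℤ)
    (hu : ∀ i, ρ i ≠ τ a → u i = 0) (hv : ∀ i, ρ i ≠ τ a → v i = 0) :
    f (N.updateCol a (u + (3 : ℤ) • v)) - 3 * f (N.updateCol a (u + (2 : ℤ) • v)) +
      3 * f (N.updateCol a (u + v)) - f (N.updateCol a u) = 0 := by
  have h1 := hf.par N hN a (u + v) v (fun i hi => by simp [hu i hi, hv i hi]) hv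
  have h2 := hf.par N hN a (u + (2 : ℤ) • v) v (fun i hi => by simp [hu i hi, hv i hi]) hv
  rw [show u + v + v = u + (2 : ℤ) • v by rw [two_zsmul, add_assoc],
    show u + v - v = u by rw [add_sub_cancel_right]] at h1
  rw [show u + (2 : ℤ) • v + v = u + (3 : ℤ) • v by
      rw [show (3 : ℤ) = 2 + 1 by norm_num, add_zsmul, one_zsmul, add_assoc],
    show u + (2 : ℤ) • v - v = u + v by rw [two_zsmul, add_sub_assoc, add_sub_cancel_right]] at h2
  linarith

theorem Good.sca (N : Matrix R D ℤ) (hN : Blk ρ τ N) (a : D) (v : R → ℤ)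
    (hv : ∀ i, ρ i ≠ τ a → v i = 0) (m : ℤ) :
    f (N.updateCol a (m • v)) = (m : ℚ) ^ 2 * f (N.updateCol a v) := by
  have h0 : f (N.updateCol a 0) = 0 := by
    have := hf.par N hN a 0 0 (fun i _ => rfl) (fun i _ => rfl)
    simp only [add_zero, sub_zero] at this
    linarith
  have hneg : ∀ w : R → ℤ, (∀ i, ρ i ≠ τ a → w i = 0) →
      f (N.updateCol a (-w)) = f (N.updateCol a w) := by
    intro w hw
    have := hf.par N hN a 0 w (fun i _ => rfl) hw
    simp only [zero_add, zero_sub] at this
    linarith
  have hnat : ∀ n : ℕ, f (N.updateCol a ((n : ℤ) • v)) = (n : ℚ) ^ 2 * f (N.updateCol a v) ∧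
      f (N.updateCol a (((n : ℤ) + 1) • v)) = ((n : ℚ) + 1) ^ 2 * f (N.updateCol a v) := by
    intro n
    induction n with
    | zero =>
      refine ⟨?_, ?_⟩
      · simp [h0]
      · simp
    | succ n ih =>
      refine ⟨?_, ?_⟩
      · push_cast; exact ih.2
      · have := hf.par N hN a (((n : ℤ) + 1) • v) v (fun i hi => by simp [hv i hi]) hv
        rw [show ((n : ℤ) + 1) • v + v = (((n + 1 : ℕ) : ℤ) + 1) • v by push_cast; module,
          show ((n : ℤ) + 1) • v - v = (n : ℤ) • v by module, ih.1, ih.2] at this
        push_cast at this ⊢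
        linarith
  obtain ⟨n, rfl | rfl⟩ := Int.eq_nat_or_neg m
  · exact (hnat n).1
  · rw [neg_smul, hneg _ (fun i hi => by simp [hv i hi]), (hnat n).1]
    push_cast
    ring

/-- the polynomial of a good function -/
theorem Good.exists_poly : ∃ P : MvPolynomial (R × D) ℚ, ∀ N : Matrix R D ℤ,
    ev (toQ N) P = f (pr ρ τ N) := by
  obtain ⟨P, hP⟩ := Pool.Agent.LibAC84.exists_poly (I := R × D)
    (fun N => f (pr ρ τ (fun i a => N (i, a)))) (by
    rintro N ⟨i, a⟩
    set M : Matrix R D ℤ := pr ρ τ (fun i a => N (i, a)) with hM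
    have hMB : Blk ρ τ M := blk_pr _
    by_cases h : ρ i = τ a
    · have h1 : ∀ x : ℤ, pr ρ τ (fun i' a' => Function.update N (i, a) (N (i, a) + x) (i', a')) =
          M.updateCol a ((fun i => M i a) + x • (Pi.single i 1 : R → ℤ)) := by
        intro x
        funext i' a'
        by_cases ha : a' = a
        · subst ha
          rw [Matrix.updateCol_self]
          by_cases hi : i' = i
          · subst hi
            simp [pr, hM, h]
          · have : (i', a') ≠ (i, a') := fun h' => hi (Prod.ext_iff.1 h').1
            simp [pr, hM, Function.update_of_ne this, Pi.single_eq_of_ne hi]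
        · rw [Matrix.updateCol_ne ha]
          have : (i', a') ≠ (i, a) := fun h' => ha (Prod.ext_iff.1 h').2
          simp [pr, hM, Function.update_of_ne this]
      have h2 := hf.cub M hMB a (fun i => M i a) (Pi.single i 1) (fun i' hi' => hMB i' a hi')
        (fun i' hi' => by
          rw [Pi.single_eq_of_ne]
          rintro rfl
          exact hi' h)
      have h3 : M.updateCol a (fun i => M i a) = M := by
        funext i' a'
        by_cases ha : a' = a
        · subst ha; rw [Matrix.updateCol_self]
        · rw [Matrix.updateCol_ne ha]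
      have h4 := h1 1
      rw [one_smul] at h4
      rw [h1 3, h1 2, h4]
      rw [h3] at h2
      exact h2
    · have h1 : ∀ x : ℤ, pr ρ τ (fun i' a' => Function.update N (i, a) (N (i, a) + x) (i', a')) =
          M := by
        intro x
        funext i' a'
        by_cases hp : (i', a') = (i, a)
        · obtain ⟨rfl, rfl⟩ := Prod.ext_iff.1 hp
          simp [pr, hM, h]
        · simp [pr, hM, Function.update_of_ne hp]
      rw [h1 3, h1 2, h1 1]
      ring)
  refine ⟨P, fun N => ?_⟩
  rw [ev]
  exact hP fun p => N p.1 p.2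

theorem Good.transv (N : Matrix R D ℤ) (hN : Blk ρ τ N) (a b : D) (hab : a ≠ b)
    (h : τ a = τ b) (t : ℤ) : f (N * transvection a b t) = f N := by
  have hstep : ∀ (M : Matrix R D ℤ), Blk ρ τ M → f (M * transvection a b (1 : ℤ)) = f M := by
    intro M hM
    rw [← hf.col M hM a b hab h]
    congr 1
    funext i b'
    by_cases hb : b' = b
    · subst hb
      rw [mul_transvection_apply_same, Matrix.updateCol_self, one_mul]
    · rw [mul_transvection_apply_of_ne _ _ _ _ hb, Matrix.updateCol_ne hb]
  have hblk : ∀ t : ℤ, Blk ρ τ (N * transvection a b t) := by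
    intro t
    refine hN.mul fun a' b' h' => ?_
    rw [transvection, Matrix.add_apply, Matrix.one_apply_ne (fun h2 => h' (by rw [h2])),
      zero_add, Matrix.single_apply_of_ne]
    rintro ⟨rfl, rfl⟩
    exact h' h
  have hadd : ∀ t : ℤ, f (N * transvection a b (t + 1)) = f (N * transvection a b t) := by
    intro t
    rw [← hstep _ (hblk t), Matrix.mul_assoc, transvection_mul_transvection_same _ _ hab]
  induction t using Int.induction_on with
  | zero => rw [transvection_zero, Matrix.mul_one]
  | succ n ih => rw [hadd, ih]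
  | pred n ih => rw [← hadd, sub_add_cancel, ih]

theorem Good.diag (N : Matrix R D ℤ) (hN : Blk ρ τ N) (d : D → ℤ) :
    f (N * diagonal d) = (∏ a, (d a : ℚ) ^ 2) * f N := by
  have key : ∀ S : Finset D, f (fun i a => if a ∈ S then N i a * d a else N i a) =
      (∏ a ∈ S, (d a : ℚ) ^ 2) * f N := by
    intro S
    induction S using Finset.induction_on with
    | empty => simp
    | insert a S ha ih =>
      rw [Finset.prod_insert ha, mul_assoc, ← ih]
      set M : Matrix R D ℤ := fun i a => if a ∈ S then N i a * d a else N i a with hM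
      have hMB : Blk ρ τ M := by
        intro i a' h'
        simp [hM, hN i a' h']
      have h1 := hf.sca M hMB a (fun i => M i a) (fun i hi => hMB i a hi) (d a)
      have h3 : M.updateCol a (fun i => M i a) = M := by
        funext i' a'
        by_cases ha : a' = a
        · subst ha; rw [Matrix.updateCol_self]
        · rw [Matrix.updateCol_ne ha]
      rw [h3] at h1
      rw [← h1]
      congr 1
      funext i a'
      by_cases ha' : a' = a
      · subst ha'
        rw [Matrix.updateCol_self]
        simp [hM, ha, mul_comm]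
      · rw [Matrix.updateCol_ne ha']
        simp [hM, ha']
  have := key Finset.univ
  simp only [Finset.mem_univ, if_true] at this
  rw [← this]
  congr 1
  funext i a
  rw [Matrix.mul_diagonal]

end good

/-! ### extension to rational matrices -/

/-- the rational matrices `T` with `P (N T) = det (T)² P (N)` for all `N` -/
def Nice (P : MvPolynomial (R × D) ℚ) (T : Matrix D D ℚ) : Prop :=
  ∀ N : Matrix R D ℚ, ev (N * T) P = T.det ^ 2 * ev N P

theorem Nice.mul {P : MvPolynomial (R × D) ℚ} {S T : Matrix D D ℚ} (hS : Nice P S)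
    (hT : Nice P T) : Nice P (S * T) := by
  intro N
  rw [← Matrix.mul_assoc, hT, hS, Matrix.det_mul]
  ring

section nice
variable {ρ : R → C} {τ : D → C} {f : Matrix R D ℤ → ℚ} (hf : Good ρ τ f)
  {P : MvPolynomial (R × D) ℚ} (hP : ∀ N : Matrix R D ℤ, ev (toQ N) P = f (pr ρ τ N))
include hf hP

theorem nice_transvection (a b : D) (hab : a ≠ b) (h : τ a = τ b) (t : ℚ) :
    Nice P (transvection a b t) := by
  have hB : ∀ t : ℤ, Blk τ τ (transvection a b t) := by
    intro t a' b' h'
    rw [transvection, Matrix.add_apply, Matrix.one_apply_ne (fun h2 => h' (by rw [h2])),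
      zero_add, Matrix.single_apply_of_ne]
    rintro ⟨rfl, rfl⟩
    exact h' h
  have key : (aeval (fun p : R × D => (X (some p) + if p.2 = b then X none * X (some (p.1, a)) else 0 :
      MvPolynomial (Option (R × D)) ℚ)) P) = aeval (fun p => X (some p)) P := by
    refine ext_int _ _ fun z => ?_
    rw [eval_aeval', eval_aeval']
    obtain ⟨A, hA⟩ : ∃ A : Matrix R D ℤ, ∀ i a, A i a = z (some (i, a)) :=
      ⟨fun i a => z (some (i, a)), fun _ _ => rfl⟩
    have h1 := hP A
    have h2 := hP (A * transvection a b (z none))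
    rw [pr_mul _ (hB _), hf.transv _ (blk_pr _) a b hab h, ← h1] at h2
    rw [ev, ev] at h2
    have e1 : (fun p : R × D => eval (fun i => ((z i : ℤ) : ℚ))
        (X (some p) + if p.2 = b then X none * X (some (p.1, a)) else 0 :
          MvPolynomial (Option (R × D)) ℚ)) =
        fun p => toQ (A * transvection a b (z none)) p.1 p.2 := by
      funext ⟨i, b'⟩
      by_cases hb : b' = b
      · subst hb
        simp only [toQ, Matrix.map_apply, mul_transvection_apply_same]
        simp [hA]
      · simp only [toQ, Matrix.map_apply, mul_transvection_apply_of_ne _ _ _ _ hb]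
        simp [hb, hA]
    have e2 : (fun p : R × D => eval (fun i => ((z i : ℤ) : ℚ))
        (X (some p) : MvPolynomial (Option (R × D)) ℚ)) = fun p => toQ A p.1 p.2 := by
      funext ⟨i, b'⟩
      simp [toQ, hA]
    rw [e1, e2]
    exact h2
  intro N
  rw [det_transvection_of_ne _ _ hab, one_pow, one_mul, ev, ev]
  have h3 := congrArg (eval (fun o : Option (R × D) => match o with
    | none => t
    | some p => N p.1 p.2)) key
  rw [eval_aeval', eval_aeval'] at h3
  have e1 : (fun p : R × D => eval (fun o : Option (R × D) => match o with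
      | none => t
      | some p => N p.1 p.2)
        (X (some p) + if p.2 = b then X none * X (some (p.1, a)) else 0 :
          MvPolynomial (Option (R × D)) ℚ)) = fun p => (N * transvection a b t) p.1 p.2 := by
    funext ⟨i, b'⟩
    by_cases hb : b' = b
    · subst hb
      simp only [mul_transvection_apply_same]
      simp
    · simp only [mul_transvection_apply_of_ne _ _ _ _ hb]
      simp [hb]
  have e2 : (fun p : R × D => eval (fun o : Option (R × D) => match o with
      | none => t
      | some p => N p.1 p.2) (X (some p) : MvPolynomial (Option (R × D)) ℚ)) =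
        fun p => N p.1 p.2 := by
    funext ⟨i, b'⟩
    simp
  rw [e1, e2] at h3
  exact h3

theorem nice_diagonal (d : D → ℚ) : Nice P (diagonal d) := by
  have hB : ∀ d : D → ℤ, Blk τ τ (diagonal d) := by
    intro d a' b' h'
    exact Matrix.diagonal_apply_ne _ (fun h2 => h' (by rw [h2]))
  have key : (aeval (fun p : R × D => (X (Sum.inl p) * X (Sum.inr p.2) :
      MvPolynomial ((R × D) ⊕ D) ℚ)) P) = (∏ a, X (Sum.inr a) ^ 2) *
        aeval (fun p => X (Sum.inl p)) P := by
    refine ext_int _ _ fun z => ?_
    rw [eval_aeval', map_mul, eval_aeval']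
    obtain ⟨A, hA⟩ : ∃ A : Matrix R D ℤ, ∀ i a, A i a = z (Sum.inl (i, a)) :=
      ⟨fun i a => z (Sum.inl (i, a)), fun _ _ => rfl⟩
    have h1 := hP A
    have h2 := hP (A * diagonal (fun a => z (Sum.inr a)))
    rw [pr_mul _ (hB _), hf.diag _ (blk_pr _), ← h1] at h2
    rw [ev, ev] at h2
    have e1 : (fun p : R × D => eval (fun i => ((z i : ℤ) : ℚ))
        (X (Sum.inl p) * X (Sum.inr p.2) : MvPolynomial ((R × D) ⊕ D) ℚ)) =
        fun p => toQ (A * diagonal (fun a => z (Sum.inr a))) p.1 p.2 := by
      funext ⟨i, b'⟩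
      simp only [toQ, Matrix.map_apply, Matrix.mul_diagonal]
      simp [hA]
    have e2 : (fun p : R × D => eval (fun i => ((z i : ℤ) : ℚ))
        (X (Sum.inl p) : MvPolynomial ((R × D) ⊕ D) ℚ)) = fun p => toQ A p.1 p.2 := by
      funext ⟨i, b'⟩
      simp [toQ, hA]
    rw [e1, e2, h2]
    simp
  intro N
  rw [det_diagonal, ev, ev]
  have h3 := congrArg (eval (Sum.elim (fun p : R × D => N p.1 p.2) d)) key
  rw [map_mul, eval_aeval', eval_aeval'] at h3
  have e1 : (fun p : R × D => eval (Sum.elim (fun p : R × D => N p.1 p.2) d)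
        (X (Sum.inl p) * X (Sum.inr p.2) : MvPolynomial ((R × D) ⊕ D) ℚ)) =
        fun p => (N * diagonal d) p.1 p.2 := by
    funext ⟨i, b'⟩
    simp [Matrix.mul_diagonal]
  have e2 : (fun p : R × D => eval (Sum.elim (fun p : R × D => N p.1 p.2) d)
        (X (Sum.inl p) : MvPolynomial ((R × D) ⊕ D) ℚ)) = fun p => N p.1 p.2 := by
    funext ⟨i, b'⟩
    simp
  rw [e1, e2] at h3
  rw [h3]
  simp [Finset.prod_pow]

/-- the matrix which is `S` on a block and the identity outside -/
noncomputable def inj (τ : D → C) (c : C) (S : Matrix {a // τ a = c} {a // τ a = c} ℚ) : Matrix D D ℚ :=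
  Matrix.reindex (Equiv.sumCompl _) (Equiv.sumCompl _) (Matrix.fromBlocks S 0 0 1)

omit hf hP in
theorem inj_mul (c : C) (S T : Matrix {a // τ a = c} {a // τ a = c} ℚ) :
    inj τ c (S * T) = inj τ c S * inj τ c T := by
  unfold inj
  rw [Matrix.reindex_apply, Matrix.reindex_apply, Matrix.reindex_apply,
    Matrix.submatrix_mul_equiv, Matrix.fromBlocks_multiply]
  simp

omit hf hP in
theorem inj_apply (c : C) (S : Matrix {a // τ a = c} {a // τ a = c} ℚ) (a b : D) :
    inj τ c S a b = if h : τ a = c ∧ τ b = c then S ⟨a, h.1⟩ ⟨b, h.2⟩ else (1 : Matrix D D ℚ) a b := by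
  unfold inj
  rw [Matrix.reindex_apply, Matrix.submatrix_apply]
  by_cases ha : τ a = c
  · rw [Equiv.sumCompl_symm_apply_of_pos (p := fun a => τ a = c) ha]
    by_cases hb : τ b = c
    · rw [Equiv.sumCompl_symm_apply_of_pos (p := fun a => τ a = c) hb, dif_pos ⟨ha, hb⟩]
      rfl
    · rw [Equiv.sumCompl_symm_apply_of_neg (p := fun a => τ a = c) hb,
        dif_neg (fun h => hb h.2), Matrix.one_apply_ne (fun h : a = b => hb (by rw [← h]; exact ha))]
      rfl
  · rw [Equiv.sumCompl_symm_apply_of_neg (p := fun a => τ a = c) ha, dif_neg (fun h => ha h.1)]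
    by_cases hb : τ b = c
    · rw [Equiv.sumCompl_symm_apply_of_pos (p := fun a => τ a = c) hb,
        Matrix.one_apply_ne (fun h : a = b => ha (by rw [h]; exact hb))]
      rfl
    · rw [Equiv.sumCompl_symm_apply_of_neg (p := fun a => τ a = c) hb,
        Matrix.fromBlocks_apply₂₂, Matrix.one_apply, Matrix.one_apply]
      simp

theorem nice_inj (c : C) (S : Matrix {a // τ a = c} {a // τ a = c} ℚ) : Nice P (inj τ c S) := by
  refine Matrix.diagonal_transvection_induction (fun S => Nice P (inj τ c S)) S ?_ ?_ ?_
  · intro d _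
    have : inj τ c (diagonal d) = diagonal fun a => if h : τ a = c then d ⟨a, h⟩ else 1 := by
      funext a b
      rw [inj_apply]
      by_cases hab : a = b
      · subst hab
        by_cases h : τ a = c
        · rw [dif_pos ⟨h, h⟩, Matrix.diagonal_apply_eq, Matrix.diagonal_apply_eq, dif_pos h]
        · rw [dif_neg (fun h' => h h'.1), Matrix.one_apply_eq, Matrix.diagonal_apply_eq, dif_neg h]
      · rw [Matrix.diagonal_apply_ne _ hab]
        by_cases h : τ a = c ∧ τ b = c
        · rw [dif_pos h, Matrix.diagonal_apply_ne]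
          intro h'
          exact hab (Subtype.ext_iff.1 h')
        · rw [dif_neg h, Matrix.one_apply_ne hab]
    rw [this]
    exact nice_diagonal hf hP _
  · intro t
    have : inj τ c t.toMatrix = transvection (t.i : D) (t.j : D) t.c := by
      funext a b
      rw [inj_apply]
      unfold TransvectionStruct.toMatrix transvection
      rw [Matrix.add_apply]
      by_cases h : τ a = c ∧ τ b = c
      · rw [dif_pos h, Matrix.add_apply]
        congr 1
        · rw [Matrix.one_apply, Matrix.one_apply]
          simp [Subtype.ext_iff]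
        · rw [Matrix.single_apply, Matrix.single_apply]
          simp [Subtype.ext_iff]
      · rw [dif_neg h, Matrix.single_apply_of_ne, add_zero]
        rintro ⟨h1, h2⟩
        exact h ⟨h1 ▸ t.i.2, h2 ▸ t.j.2⟩
    rw [this]
    refine nice_transvection hf hP _ _ (fun h => t.hij (Subtype.ext h)) (t.i.2.trans t.j.2.symm) _
  · intro A B hA hB
    rw [inj_mul]
    exact hA.mul hB

theorem nice_of_blk (T : Matrix D D ℚ) (hT : Blk τ τ T) : Nice P T := by
  have key : ∀ S : Finset C, ∀ T : Matrix D D ℚ, Blk τ τ T →
      (∀ a b, τ a ∉ S → T a b = (1 : Matrix D D ℚ) a b) → Nice P T := by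
    intro S
    induction S using Finset.induction_on with
    | empty =>
      intro T _ h
      have : T = 1 := by
        funext a b
        exact h a b (Finset.notMem_empty _)
      rw [this]
      intro N
      simp
    | insert c S hc ih =>
      intro T hT h
      set T' : Matrix D D ℚ := fun a b => if τ a = c then (1 : Matrix D D ℚ) a b else T a b with hT'
      obtain ⟨S', hS'⟩ : ∃ S' : Matrix {a // τ a = c} {a // τ a = c} ℚ, ∀ a b, S' a b = T a b :=
        ⟨fun a b => T a b, fun _ _ => rfl⟩
      have h1 : T = T' * inj τ c S' := by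
        ext a b
        rw [Matrix.mul_apply]
        by_cases ha : τ a = c
        · rw [Finset.sum_eq_single a]
          · rw [hT']
            simp only [if_pos ha]
            rw [Matrix.one_apply_eq, one_mul, inj_apply]
            by_cases hb : τ b = c
            · rw [dif_pos ⟨ha, hb⟩, hS']
            · rw [dif_neg (fun h' => hb h'.2),
                Matrix.one_apply_ne (fun h' : a = b => hb (by rw [← h']; exact ha))]
              exact hT a b (fun h' => hb (by rw [← h']; exact ha))
          · intro a' _ ha'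
            rw [hT']
            simp only [if_pos ha]
            rw [Matrix.one_apply_ne (Ne.symm ha'), zero_mul]
          · intro h'; exact absurd (Finset.mem_univ a) h'
        · rw [Finset.sum_eq_single b]
          · rw [hT']
            simp only [if_neg ha]
            rw [inj_apply]
            by_cases hb : τ b = c
            · rw [dif_pos ⟨hb, hb⟩, hT a b (fun h' => ha (h'.trans hb)), zero_mul]
            · rw [dif_neg (fun h' => hb h'.2), Matrix.one_apply_eq, mul_one]
          · intro a' _ ha'
            rw [hT']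
            simp only [if_neg ha]
            by_cases hc' : τ a = τ a'
            · rw [inj_apply, dif_neg (fun h' => ha (hc'.trans h'.1)), Matrix.one_apply_ne ha',
                mul_zero]
            · rw [hT a a' hc', zero_mul]
          · intro h'; exact absurd (Finset.mem_univ b) h'
      rw [h1]
      refine (ih T' ?_ ?_).mul (nice_inj hf hP c _)
      · intro a b hab
        rw [hT']
        by_cases ha : τ a = c
        · simp only [if_pos ha]
          exact Matrix.one_apply_ne (fun h' => hab (by rw [h']))
        · simp only [if_neg ha]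
          exact hT a b hab
      · intro a b ha
        rw [hT']
        by_cases ha' : τ a = c
        · simp only [if_pos ha']
        · simp only [if_neg ha']
          exact h a b (by
            rw [Finset.mem_insert, not_or]
            exact ⟨ha', ha⟩)
  exact key (Finset.univ.image τ) T hT (fun a b ha => absurd (Finset.mem_image_of_mem τ
    (Finset.mem_univ a)) ha)

theorem ev_pr (N : Matrix R D ℚ) : ev (pr ρ τ N) P = ev N P := by
  have key : aeval (fun p : R × D => (if ρ p.1 = τ p.2 then X p else 0 :
      MvPolynomial (R × D) ℚ)) P = P := by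
    refine ext_int _ _ fun z => ?_
    rw [eval_aeval']
    obtain ⟨A, hA⟩ : ∃ A : Matrix R D ℤ, ∀ i a, A i a = z (i, a) :=
      ⟨fun i a => z (i, a), fun _ _ => rfl⟩
    have h1 := hP A
    have h2 := hP (pr ρ τ A)
    rw [pr_of_blk (blk_pr A), ← h1] at h2
    rw [ev, ev] at h2
    have e1 : (fun p : R × D => eval (fun i => ((z i : ℤ) : ℚ))
        (if ρ p.1 = τ p.2 then X p else 0 : MvPolynomial (R × D) ℚ)) =
        fun p => toQ (pr ρ τ A) p.1 p.2 := by
      funext ⟨i, b'⟩
      by_cases hb : ρ i = τ b'
      · simp [toQ, pr, hb, hA]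
      · simp [toQ, pr, hb]
    have e2 : (fun i => ((z i : ℤ) : ℚ)) = fun p => toQ A p.1 p.2 := by
      funext ⟨i, b'⟩
      simp [toQ, hA]
    rw [e1, h2, e2]
  have h3 := congrArg (eval (fun p : R × D => N p.1 p.2)) key
  rw [eval_aeval'] at h3
  rw [ev, ev, ← h3]
  congr 1
  congr 1
  funext ⟨i, b'⟩
  by_cases hb : ρ i = τ b'
  · simp [pr, hb]
  · simp [pr, hb]

end nice

end Pool.Agent.LibAC84
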