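import Mathlib

/-!
The Fischer pairing of polynomials.
-/

open MvPolynomial
open scoped Nat BigOperators

set_option linter.unusedSectionVars false

namespace Pool.Agent.LibAC84

variable {σ τ : Type} [DecidableEq σ] [DecidableEq τ]

/-- the factorial of a multi-index -/
def fac (α : σ →₀ ℕ) : ℚ := α.prod fun _ k => (k ! : ℚ)

theorem fac_pos (α : σ →₀ ℕ) : 0 < fac α := by
  unfold fac
  exact Finset.prod_pos fun i _ => by positivity

theorem fac_add_single (α : σ →₀ ℕ) (s : σ) :
    fac (α + Finsupp.single s 1) = (α s + 1) * fac α := by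
  unfold fac
  set β : σ →₀ ℕ := α + Finsupp.single s 1 with hβ
  rw [Finsupp.prod_of_support_subset (s := insert s α.support) (f := β)]
  · rw [Finsupp.prod_of_support_subset (s := insert s α.support) (f := α)]
    · rw [← Finset.mul_prod_erase _ _ (Finset.mem_insert_self s α.support),
        ← Finset.mul_prod_erase (insert s α.support) (fun i => ((α i)! : ℚ))
          (Finset.mem_insert_self s α.support)]
      have h1 : ∏ x ∈ (insert s α.support).erase s, ((β x)! : ℚ) =
          ∏ x ∈ (insert s α.support).erase s, ((α x)! : ℚ) := by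
        refine Finset.prod_congr rfl fun i hi => ?_
        have hi' : i ≠ s := (Finset.mem_erase.1 hi).1
        rw [hβ]
        simp [Ne.symm hi']
      rw [h1, hβ]
      simp [Nat.factorial_succ]
      ring
    · exact Finset.subset_insert _ _
    · intro i _; simp
  · intro i hi
    rw [Finsupp.mem_support_iff] at hi
    by_cases h : i = s
    · rw [h]; exact Finset.mem_insert_self _ _
    · refine Finset.mem_insert_of_mem (Finsupp.mem_support_iff.2 ?_)
      simpa [hβ, Finsupp.single_apply, Ne.symm h] using hi
  · intro i _; simp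

/-- the Fischer pairing -/
noncomputable def fis (P Q : MvPolynomial σ ℚ) : ℚ :=
  ∑ α ∈ Q.support, fac α * coeff α P * coeff α Q

theorem fis_eq (P Q : MvPolynomial σ ℚ) (S : Finset (σ →₀ ℕ)) (h : Q.support ⊆ S) :
    fis P Q = ∑ α ∈ S, fac α * coeff α P * coeff α Q := by
  unfold fis
  refine Finset.sum_subset h fun α _ hα => ?_
  rw [MvPolynomial.notMem_support_iff.1 hα, mul_zero]

theorem fis_add_right (P Q R : MvPolynomial σ ℚ) : fis P (Q + R) = fis P Q + fis P R := by
  rw [fis_eq P Q (Q.support ∪ R.support) Finset.subset_union_left,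
    fis_eq P R (Q.support ∪ R.support) Finset.subset_union_right,
    fis_eq P (Q + R) (Q.support ∪ R.support) MvPolynomial.support_add, ← Finset.sum_add_distrib]
  refine Finset.sum_congr rfl fun α _ => ?_
  rw [coeff_add]
  ring

theorem fis_add_left (P Q R : MvPolynomial σ ℚ) : fis (P + Q) R = fis P R + fis Q R := by
  rw [fis_eq (P + Q) R R.support subset_rfl, fis_eq P R R.support subset_rfl,
    fis_eq Q R R.support subset_rfl, ← Finset.sum_add_distrib]
  refine Finset.sum_congr rfl fun α _ => ?_
  rw [coeff_add]
  ring

theorem fis_smul_right (a : ℚ) (P Q : MvPolynomial σ ℚ) : fis P (a • Q) = a * fis P Q := by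
  rw [fis_eq P (a • Q) Q.support MvPolynomial.support_smul, fis_eq P Q Q.support subset_rfl,
    Finset.mul_sum]
  refine Finset.sum_congr rfl fun α _ => ?_
  rw [coeff_smul, smul_eq_mul]
  ring

theorem fis_smul_left (a : ℚ) (P Q : MvPolynomial σ ℚ) : fis (a • P) Q = a * fis P Q := by
  rw [fis_eq (a • P) Q Q.support subset_rfl, fis_eq P Q Q.support subset_rfl,
    Finset.mul_sum]
  refine Finset.sum_congr rfl fun α _ => ?_
  rw [coeff_smul, smul_eq_mul]
  ring

/-- the Fischer pairing, bilinear -/
noncomputable def fisL : MvPolynomial σ ℚ →ₗ[ℚ] MvPolynomial σ ℚ →ₗ[ℚ] ℚ :=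
  LinearMap.mk₂ ℚ fis fis_add_left fis_smul_left fis_add_right fis_smul_right

@[simp] theorem fisL_apply (P Q : MvPolynomial σ ℚ) : fisL P Q = fis P Q := rfl

theorem fis_sum_left {ι : Type*} (s : Finset ι) (f : ι → MvPolynomial σ ℚ)
    (Q : MvPolynomial σ ℚ) : fis (∑ i ∈ s, f i) Q = ∑ i ∈ s, fis (f i) Q := by
  rw [← fisL_apply, map_sum, LinearMap.sum_apply]
  rfl

theorem fis_sum_right {ι : Type*} (s : Finset ι) (f : ι → MvPolynomial σ ℚ)
    (Q : MvPolynomial σ ℚ) : fis Q (∑ i ∈ s, f i) = ∑ i ∈ s, fis Q (f i) := by
  rw [← fisL_apply, map_sum]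
  rfl

theorem fis_zero_left (Q : MvPolynomial σ ℚ) : fis 0 Q = 0 := by
  rw [← fisL_apply, map_zero, LinearMap.zero_apply]

theorem fis_zero_right (Q : MvPolynomial σ ℚ) : fis Q 0 = 0 := by
  rw [← fisL_apply, map_zero]

theorem fis_neg_right (P Q : MvPolynomial σ ℚ) : fis P (-Q) = - fis P Q := by
  rw [← fisL_apply, map_neg]
  rfl

theorem fis_sub_right (P Q R : MvPolynomial σ ℚ) : fis P (Q - R) = fis P Q - fis P R := by
  rw [← fisL_apply, map_sub]
  rfl

theorem fis_self_nonneg (P : MvPolynomial σ ℚ) : 0 ≤ fis P P := by
  rw [fis_eq P P P.support subset_rfl]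
  refine Finset.sum_nonneg fun α _ => ?_
  rw [mul_assoc]
  exact mul_nonneg (fac_pos α).le (mul_self_nonneg _)

theorem fis_self_pos (P : MvPolynomial σ ℚ) (h : P ≠ 0) : 0 < fis P P := by
  rw [fis_eq P P P.support subset_rfl]
  obtain ⟨α, hα⟩ := MvPolynomial.support_nonempty.2 h
  refine Finset.sum_pos' (fun α _ => ?_) ⟨α, hα, ?_⟩
  · rw [mul_assoc]
    exact mul_nonneg (fac_pos α).le (mul_self_nonneg _)
  · rw [mul_assoc]
    exact mul_pos (fac_pos α) (mul_self_pos.2 (MvPolynomial.mem_support_iff.1 hα))

theorem fis_monomial_left (α : σ →₀ ℕ) (Q : MvPolynomial σ ℚ) :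
    fis (monomial α 1) Q = fac α * coeff α Q := by
  rw [fis_eq _ Q (insert α Q.support) (Finset.subset_insert _ _),
    Finset.sum_eq_single_of_mem α (Finset.mem_insert_self _ _)]
  · rw [coeff_monomial, if_pos rfl, mul_one]
  · intro β _ hβ
    rw [coeff_monomial, if_neg (Ne.symm hβ), mul_zero, zero_mul]

theorem fis_monomial_right (α : σ →₀ ℕ) (P : MvPolynomial σ ℚ) :
    fis P (monomial α 1) = fac α * coeff α P := by
  rw [fis_eq P _ {α} (by
    intro β hβ
    rw [MvPolynomial.mem_support_iff, coeff_monomial] at hβ
    rw [Finset.mem_singleton]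
    by_contra h
    exact hβ (if_neg (Ne.symm h)))]
  simp

theorem fis_comm (P Q : MvPolynomial σ ℚ) : fis P Q = fis Q P := by
  rw [fis_eq P Q (P.support ∪ Q.support) Finset.subset_union_right,
    fis_eq Q P (P.support ∪ Q.support) Finset.subset_union_left]
  exact Finset.sum_congr rfl fun α _ => by ring

theorem fis_X_mul (s : σ) (P Q : MvPolynomial σ ℚ) : fis (X s * P) Q = fis P (pderiv s Q) := by
  -- both sides are linear in `P`
  induction P using MvPolynomial.induction_on' with
  | add P P' h h' => rw [mul_add, fis_add_left, fis_add_left, h, h']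
  | monomial α a =>
    have h1 : (monomial α a : MvPolynomial σ ℚ) = a • monomial α 1 := by
      rw [smul_monomial, smul_eq_mul, mul_one]
    have h2 : (X s * monomial α 1 : MvPolynomial σ ℚ) = monomial (α + Finsupp.single s 1) 1 := by
      rw [X, monomial_mul, one_mul, add_comm]
    rw [h1, mul_smul_comm, fis_smul_left, fis_smul_left, h2, fis_monomial_left,
      fis_monomial_left, fac_add_single]
    congr 1
    -- the coefficient of the derivative
    have h3 : coeff α (pderiv s Q) = (α s + 1) * coeff (α + Finsupp.single s 1) Q := by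
      induction Q using MvPolynomial.induction_on' with
      | add P P' h h' => rw [map_add, coeff_add, coeff_add, h, h']; ring
      | monomial β b =>
        rw [pderiv_monomial, coeff_monomial, coeff_monomial]
        by_cases hb : β s = 0
        · have h4 : β ≠ α + Finsupp.single s 1 := by
            rintro rfl
            simp at hb
          rw [if_neg h4, mul_zero]
          split_ifs
          · rw [hb]; simp
          · rfl
        · by_cases h5 : β = α + Finsupp.single s 1
          · rw [if_pos h5, h5]
            have : α + Finsupp.single s 1 - Finsupp.single s 1 = α := by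
              ext i; simp
            rw [if_pos this]
            simp
            ring
          · rw [if_neg h5, mul_zero, if_neg]
            intro h6
            apply h5
            rw [← h6]
            ext i
            by_cases hi : i = s
            · subst hi
              simp
              omega
            · simp [Finsupp.single_apply, Ne.symm hi]
    rw [h3]
    ring

theorem fis_mul_X (s : σ) (P Q : MvPolynomial σ ℚ) : fis P (X s * Q) = fis (pderiv s P) Q := by
  rw [fis_comm, fis_X_mul, fis_comm]

variable [Fintype σ] [Fintype τ]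

/-- the linear substitution `X_s ↦ ∑ A s t X_t` -/
noncomputable def sub (A : σ → τ → ℚ) : MvPolynomial σ ℚ →ₐ[ℚ] MvPolynomial τ ℚ :=
  aeval fun s => ∑ t, C (A s t) * X t

theorem sub_X (A : σ → τ → ℚ) (s : σ) : sub A (X s) = ∑ t, C (A s t) * X t := by
  rw [sub, aeval_X]

theorem pderiv_sub (A : σ → τ → ℚ) (t : τ) (Q : MvPolynomial σ ℚ) :
    pderiv t (sub A Q) = ∑ s, C (A s t) * sub A (pderiv s Q) := by
  induction Q using MvPolynomial.induction_on with
  | C a => simp [sub]
  | add P P' h h' =>
    simp only [map_add, h, h', mul_add, Finset.sum_add_distrib]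
  | mul_X P s h =>
    rw [map_mul, sub_X, Derivation.leibniz, h]
    have h1 : pderiv t (∑ t', C (A s t') * X t' : MvPolynomial τ ℚ) = C (A s t) := by
      rw [map_sum, Finset.sum_eq_single t]
      · rw [pderiv_C_mul, pderiv_X_self, mul_one]
      · intro t' _ ht'
        rw [pderiv_C_mul, pderiv_X_of_ne ht', mul_zero]
      · intro h; exact absurd (Finset.mem_univ t) h
    rw [h1, smul_eq_mul, smul_eq_mul]
    have h2 : ∀ s', C (A s' t) * sub A (pderiv s' (P * X s)) =
        (∑ t', C (A s t') * X t') * (C (A s' t) * sub A (pderiv s' P)) +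
          (if s' = s then C (A s t) * sub A P else 0) := by
      intro s'
      rw [Derivation.leibniz, map_add, smul_eq_mul, smul_eq_mul, map_mul, map_mul, sub_X]
      split_ifs with h3
      · subst h3
        rw [pderiv_X_self, map_one]
        ring
      · rw [pderiv_X_of_ne (Ne.symm h3), map_zero]
        ring
    rw [Finset.sum_congr rfl fun s' _ => h2 s', Finset.sum_add_distrib, ← Finset.mul_sum,
      Finset.sum_ite_eq' Finset.univ s, if_pos (Finset.mem_univ s)]
    ring

/-- adjointness of a linear substitution and its transpose -/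
theorem fis_sub (A : σ → τ → ℚ) (P : MvPolynomial σ ℚ) (Q : MvPolynomial τ ℚ) :
    fis (sub A P) Q = fis P (sub (fun t s => A s t) Q) := by
  induction P using MvPolynomial.induction_on generalizing Q with
  | C a =>
    have h1 : (C a : MvPolynomial σ ℚ) = a • monomial 0 1 := by
      rw [smul_monomial, smul_eq_mul, mul_one]; rfl
    have h2 : (sub A (C a) : MvPolynomial τ ℚ) = a • monomial 0 1 := by
      rw [smul_monomial, smul_eq_mul, mul_one, sub, algHom_C]; rfl
    rw [h2, h1, fis_smul_left, fis_smul_left, fis_monomial_left, fis_monomial_left]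
    have h3 : coeff 0 (sub (fun t s => A s t) Q) = coeff 0 Q := by
      have h4 : ∀ R : MvPolynomial τ ℚ, constantCoeff (sub (fun t s => A s t) R) =
          constantCoeff R := by
        intro R
        induction R using MvPolynomial.induction_on with
        | C a => simp [sub]
        | add P P' h h' => simp only [map_add, h, h']
        | mul_X P s h =>
          rw [map_mul, map_mul, map_mul, h, sub_X]
          simp
      simpa [constantCoeff_eq] using h4 Q
    rw [h3]
    simp [fac]
  | add P P' h h' => rw [map_add, fis_add_left, fis_add_left, h, h']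
  | mul_X P s h =>
    rw [mul_comm P, map_mul, sub_X, Finset.sum_mul, fis_sum_left, fis_X_mul, pderiv_sub,
      fis_sum_right]
    refine Finset.sum_congr rfl fun t _ => ?_
    rw [mul_assoc, ← smul_eq_C_mul, fis_smul_left, fis_X_mul, h, ← smul_eq_C_mul, fis_smul_right]

end Pool.Agent.LibAC84
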