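import Pool.Agent.LibAC84.Equi

/-!
Cycles with trivial intersection numbers: the algebra.
-/

open MvPolynomial Matrix

set_option linter.unusedSectionVars false

namespace Pool.Agent.LibAC84

variable {C R D : Type} [DecidableEq C] [Fintype R] [DecidableEq R] [Fintype D] [DecidableEq D]

/-! ### the generic block matrix -/

/-- the generic block matrix -/
noncomputable def Ymat (τ : D → C) : Matrix D D (MvPolynomial (D × D) ℚ) :=
  fun a b => if τ a = τ b then X (a, b) else 0

theorem Ymat_pos (τ : D → C) {a b : D} (h : τ a = τ b) : Ymat τ a b = X (a, b) := if_pos h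

theorem Ymat_neg (τ : D → C) {a b : D} (h : τ a ≠ τ b) : Ymat τ a b = 0 := if_neg h

theorem mulVec_eq {K : Type} [NonUnitalNonAssocSemiring K] (A : Matrix D D K) (v : D → K) (a : D) :
    (A *ᵥ v) a = ∑ b, A a b * v b := rfl

/-- the square of its determinant -/
noncomputable def Hpol (τ : D → C) : MvPolynomial (D × D) ℚ := (Ymat τ).det ^ 2

/-- its determinant times its adjugate -/
noncomputable def Kpol (τ : D → C) (a b : D) : MvPolynomial (D × D) ℚ :=
  (Ymat τ).det * (Ymat τ).adjugate a b

theorem map_Ymat (τ : D → C) (Y : Matrix D D ℚ) :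
    (Ymat τ).map (eval fun p => Y p.1 p.2) = pr τ τ Y := by
  ext a b
  rw [Matrix.map_apply, Ymat, pr]
  split_ifs <;> simp

theorem eval_det (τ : D → C) (Y : Matrix D D ℚ) :
    eval (fun p => Y p.1 p.2) (Ymat τ).det = (pr τ τ Y).det := by
  rw [RingHom.map_det, RingHom.mapMatrix_apply, map_Ymat]

theorem eval_adjugate (τ : D → C) (Y : Matrix D D ℚ) (a b : D) :
    eval (fun p => Y p.1 p.2) ((Ymat τ).adjugate a b) = (pr τ τ Y).adjugate a b := by
  rw [← map_Ymat, ← RingHom.mapMatrix_apply, ← RingHom.map_adjugate, RingHom.mapMatrix_apply,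
    Matrix.map_apply]

theorem det_ne_zero (τ : D → C) : (Ymat τ).det ≠ 0 := by
  intro h
  have h1 := eval_det τ (1 : Matrix D D ℚ)
  rw [h, map_zero, pr_of_blk, det_one] at h1
  · exact zero_ne_one h1
  · intro a b hab
    exact Matrix.one_apply_ne (fun h' => hab (by rw [h']))

theorem Hpol_ne_zero (τ : D → C) : Hpol τ ≠ 0 := pow_ne_zero 2 (det_ne_zero τ)

/-- the matrix of the substitution `M = N Yᵀ` -/
def subA (N : Matrix R D ℚ) : (R × D) → (D × D) → ℚ :=
  fun p q => if q.1 = p.2 then N p.1 q.2 else 0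

theorem eval_sub (N : Matrix R D ℚ) (Y : Matrix D D ℚ) (P : MvPolynomial (R × D) ℚ) :
    eval (fun p => Y p.1 p.2) (sub (subA N) P) = ev (N * Yᵀ) P := by
  unfold sub ev
  rw [eval_aeval']
  congr 1
  congr 1
  funext ⟨i, a⟩
  rw [map_sum]
  simp only [map_mul, eval_C, eval_X, subA]
  rw [Fintype.sum_prod_type, Finset.sum_eq_single a]
  · simp [Matrix.mul_apply]
  · intro a' _ ha'
    simp [ha']
  · intro h; exact absurd (Finset.mem_univ a) h

theorem eval_subT (N : Matrix R D ℚ) (M : Matrix R D ℚ) (Q : MvPolynomial (D × D) ℚ) :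
    ev M (sub (fun t s => subA N s t) Q) = eval (fun p => (Mᵀ * N) p.1 p.2) Q := by
  unfold sub ev
  rw [eval_aeval']
  congr 1
  congr 1
  funext ⟨a, b⟩
  rw [map_sum]
  simp only [map_mul, eval_C, eval_X, subA]
  rw [Fintype.sum_prod_type, Matrix.mul_apply]
  refine Finset.sum_congr rfl fun i _ => ?_
  rw [Finset.sum_eq_single a]
  · simp [mul_comm]
  · intro a' _ ha'
    simp [Ne.symm ha']
  · intro h; exact absurd (Finset.mem_univ a) h

theorem pr_pos {ρ : R → C} {τ : D → C} {K : Type} [Zero K] (N : Matrix R D K) {i : R} {a : D}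
    (h : ρ i = τ a) : pr ρ τ N i a = N i a := if_pos h

theorem pr_neg {ρ : R → C} {τ : D → C} {K : Type} [Zero K] (N : Matrix R D K) {i : R} {a : D}
    (h : ρ i ≠ τ a) : pr ρ τ N i a = 0 := if_neg h

theorem pr_mul_transpose {ρ : R → C} {τ : D → C} {N : Matrix R D ℚ} (hN : Blk ρ τ N)
    (Y : Matrix D D ℚ) : pr ρ τ (N * Yᵀ) = N * (pr τ τ Y)ᵀ := by
  ext i a
  rw [Matrix.mul_apply]
  by_cases h : ρ i = τ a
  · rw [pr_pos _ h, Matrix.mul_apply]
    refine Finset.sum_congr rfl fun b _ => ?_
    by_cases h1 : ρ i = τ b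
    · rw [transpose_apply, transpose_apply, pr_pos _ (h.symm.trans h1)]
    · rw [hN i b h1, zero_mul, zero_mul]
  · rw [pr_neg _ h]
    symm
    refine Finset.sum_eq_zero fun b _ => ?_
    by_cases h1 : ρ i = τ b
    · rw [transpose_apply, pr_neg _ (fun h2 => h (h1.trans h2.symm)), mul_zero]
    · rw [hN i b h1, zero_mul]

theorem pr_transpose_mul {ρ : R → C} {τ : D → C} {N : Matrix R D ℚ} (hN : Blk ρ τ N)
    (M : Matrix R D ℚ) : pr τ τ (Mᵀ * N) = (pr ρ τ M)ᵀ * N := by
  ext a b
  rw [Matrix.mul_apply]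
  by_cases h : τ a = τ b
  · rw [pr_pos _ h, Matrix.mul_apply]
    refine Finset.sum_congr rfl fun i _ => ?_
    by_cases h1 : ρ i = τ b
    · rw [transpose_apply, transpose_apply, pr_pos _ (h1.trans h.symm)]
    · rw [hN i b h1, mul_zero, mul_zero]
  · rw [pr_neg _ h]
    symm
    refine Finset.sum_eq_zero fun i _ => ?_
    by_cases h1 : ρ i = τ b
    · rw [transpose_apply, pr_neg _ (fun h2 => h (h2.symm.trans h1)), zero_mul]
    · rw [hN i b h1, mul_zero]

/-! ### the main formulas -/

section main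
variable {ρ : R → C} {τ : D → C} {f : Matrix R D ℤ → ℚ} (hf : Good ρ τ f)
  {P : MvPolynomial (R × D) ℚ} (hP : ∀ N : Matrix R D ℤ, ev (toQ N) P = f (pr ρ τ N))
include hf hP

theorem sub_eq (N : Matrix R D ℚ) (hN : Blk ρ τ N) : sub (subA N) P = MvPolynomial.C (ev N P) * Hpol τ := by
  refine MvPolynomial.funext fun y => ?_
  obtain ⟨Y, rfl⟩ : ∃ Y : Matrix D D ℚ, y = fun p => Y p.1 p.2 :=
    ⟨fun a b => y (a, b), rfl⟩
  rw [eval_sub, ← ev_pr hf hP, pr_mul_transpose hN, map_mul, eval_C, Hpol, map_pow, eval_det,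
    nice_of_blk hf hP _ (fun a b h => by
      rw [transpose_apply]
      exact blk_pr Y b a (Ne.symm h)), det_transpose]
  ring

theorem fis_H (N : Matrix R D ℚ) (hN : Blk ρ τ N) :
    fis P (sub (fun t s => subA N s t) (Hpol τ)) = ev N P * fis (Hpol τ) (Hpol τ) := by
  rw [← fis_sub, sub_eq hf hP N hN, ← smul_eq_C_mul, fis_smul_left]

end main

/-! ### the Abel-Jacobi part -/

/-- the coefficients of the product of the two determinants, as polynomials in `M` -/
noncomputable def Bpol (τ : D → C) (c : C) (N : Matrix R D ℚ) (i k : R) : MvPolynomial (R × D) ℚ :=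
  (if i = k then sub (fun t s => subA N s t) (Hpol τ) else 0) -
    ∑ b, ∑ a, if τ b = c then
      MvPolynomial.C (N i a) * (X (k, b) * sub (fun t s => subA N s t) (Kpol τ a b)) else 0

/-- the constant -/
noncomputable def kap (τ : D → C) (c : C) : ℚ :=
  fis (Hpol τ) (Hpol τ) + ∑ b, ∑ a, if τ b = c then fis (Kpol τ a b) (Kpol τ a b) else 0

theorem kap_pos (τ : D → C) (c : C) : 0 < kap τ c := by
  refine add_pos_of_pos_of_nonneg (fis_self_pos _ (Hpol_ne_zero τ)) ?_
  refine Finset.sum_nonneg fun b _ => Finset.sum_nonneg fun a _ => ?_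
  split_ifs
  · exact fis_self_nonneg _
  · exact le_rfl

section AJ
variable {ρ : R → C} {τ : D → C} {c : C} {f : R → Matrix R D ℤ → ℚ} (hf : ∀ i, Good ρ τ (f i))
  {P : R → MvPolynomial (R × D) ℚ}
  (hP : ∀ i, ∀ N : Matrix R D ℤ, ev (toQ N) (P i) = f i (pr ρ τ N))
  (h0 : ∀ i, ρ i ≠ c → P i = 0) (hrel : ∀ a, τ a = c → ∑ i, X (i, a) * P i = 0)
include hf hP h0 hrel

theorem Z_eq (N : Matrix R D ℚ) (hN : Blk ρ τ N) (k : R) (b : D) (hb : τ b = c) (a : D) :
    ∑ i, MvPolynomial.C (N i a) * sub (subA N) (pderiv (k, b) (P i)) =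
      - (MvPolynomial.C (ev N (P k)) * Kpol τ a b) := by
  set Z : D → MvPolynomial (D × D) ℚ := fun a =>
    ∑ i, MvPolynomial.C (N i a) * sub (subA N) (pderiv (k, b) (P i)) with hZ
  have hZ0 : ∀ a, τ a ≠ c → Z a = 0 := by
    intro a ha
    rw [hZ]
    refine Finset.sum_eq_zero fun i _ => ?_
    by_cases hi : ρ i = c
    · rw [hN i a (fun h => ha (h.symm.trans hi)), map_zero, zero_mul]
    · rw [h0 i hi, map_zero, map_zero, mul_zero]
  have hYZ : ∀ a, (Ymat τ *ᵥ Z) a = if a = b then - (MvPolynomial.C (ev N (P k)) * Hpol τ) else 0 := by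
    intro a
    by_cases ha : τ a = c
    · have h1 := congrArg (fun Q => sub (subA N) (pderiv (k, b) Q)) (hrel a ha)
      simp only [map_sum, map_zero] at h1
      have h2 : ∀ i, sub (subA N) (pderiv (k, b) (X (i, a) * P i)) =
          (if i = k then (if a = b then sub (subA N) (P k) else 0) else 0) +
            ∑ b', MvPolynomial.C (N i b') * X (a, b') * sub (subA N) (pderiv (k, b) (P i)) := by
        intro i
        rw [Derivation.leibniz, smul_eq_mul, smul_eq_mul, map_add, map_mul, map_mul, add_comm]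
        congr 1
        · by_cases hi : i = k
          · subst hi
            rw [if_pos rfl]
            by_cases hab : a = b
            · subst hab
              rw [pderiv_X_self, map_one, mul_one, if_pos rfl]
            · rw [if_neg hab, pderiv_X_of_ne, map_zero, mul_zero]
              intro h
              exact hab (Prod.ext_iff.1 h).2
          · rw [if_neg hi, pderiv_X_of_ne, map_zero, mul_zero]
            intro h
            exact hi (Prod.ext_iff.1 h).1
        · rw [sub_X, Fintype.sum_prod_type, Finset.sum_eq_single a, Finset.sum_mul]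
          · refine Finset.sum_congr rfl fun b' _ => ?_
            simp [subA]
          · intro a' _ ha'
            refine Finset.sum_eq_zero fun b' _ => ?_
            simp [subA, ha']
          · intro h; exact absurd (Finset.mem_univ a) h
      rw [Finset.sum_congr rfl fun i _ => h2 i, Finset.sum_add_distrib,
        Finset.sum_ite_eq' Finset.univ k, if_pos (Finset.mem_univ k), Finset.sum_comm] at h1
      have h3 : (Ymat τ *ᵥ Z) a =
          ∑ b', ∑ i, MvPolynomial.C (N i b') * X (a, b') * sub (subA N) (pderiv (k, b) (P i)) := by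
        rw [mulVec_eq]
        refine Finset.sum_congr rfl fun b' _ => ?_
        by_cases hb' : τ b' = c
        · rw [Ymat_pos τ (ha.trans hb'.symm), hZ, Finset.mul_sum]
          refine Finset.sum_congr rfl fun i _ => ?_
          ring
        · rw [hZ0 b' hb', mul_zero]
          symm
          refine Finset.sum_eq_zero fun i _ => ?_
          by_cases hi : ρ i = c
          · rw [hN i b' (fun h => hb' (h.symm.trans hi)), map_zero, zero_mul, zero_mul]
          · rw [h0 i hi, map_zero, map_zero, mul_zero]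
      rw [h3]
      by_cases hab : a = b
      · rw [if_pos hab]
        rw [if_pos hab] at h1
        rw [← sub_eq (hf k) (hP k) N hN]
        exact eq_neg_of_add_eq_zero_right h1
      · rw [if_neg hab]
        rw [if_neg hab, zero_add] at h1
        exact h1
    · rw [if_neg (fun h : a = b => ha (by rw [h]; exact hb))]
      rw [mulVec_eq]
      refine Finset.sum_eq_zero fun b' _ => ?_
      by_cases hb' : τ b' = c
      · rw [Ymat_neg τ (fun h => ha (h.trans hb')), zero_mul]
      · rw [hZ0 b' hb', mul_zero]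
  have hfin : (Ymat τ).det * Z a = (Ymat τ).det * - (MvPolynomial.C (ev N (P k)) * Kpol τ a b) := by
    have h1 : (Ymat τ).adjugate *ᵥ (Ymat τ *ᵥ Z) = (Ymat τ).det • Z := by
      rw [Matrix.mulVec_mulVec, Matrix.adjugate_mul, Matrix.smul_mulVec, Matrix.one_mulVec]
    have h2 := congrFun h1 a
    rw [Pi.smul_apply, smul_eq_mul] at h2
    rw [← h2, mulVec_eq, Finset.sum_eq_single b]
    · rw [hYZ b, if_pos rfl, Kpol, Hpol]
      ring
    · intro b' _ hb'
      rw [hYZ b', if_neg hb', mul_zero]
    · intro h; exact absurd (Finset.mem_univ b) h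
  exact mul_left_cancel₀ (det_ne_zero τ) hfin

theorem fis_AJ (N : Matrix R D ℚ) (hN : Blk ρ τ N) (k : R) :
    ∑ i, fis (P i) (Bpol τ c N i k) = kap τ c * ev N (P k) := by
  have h1 : ∀ i, fis (P i) (Bpol τ c N i k) =
      (if i = k then fis (P k) (sub (fun t s => subA N s t) (Hpol τ)) else 0) -
        ∑ b, ∑ a, if τ b = c then
          fis (MvPolynomial.C (N i a) * sub (subA N) (pderiv (k, b) (P i))) (Kpol τ a b) else 0 := by
    intro i
    rw [Bpol, fis_sub_right]
    congr 1
    · by_cases hi : i = k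
      · subst hi
        rw [if_pos rfl, if_pos rfl]
      · rw [if_neg hi, if_neg hi, fis_zero_right]
    · rw [fis_sum_right]
      refine Finset.sum_congr rfl fun b _ => ?_
      rw [fis_sum_right]
      refine Finset.sum_congr rfl fun a _ => ?_
      by_cases hb : τ b = c
      · rw [if_pos hb, if_pos hb, ← smul_eq_C_mul, fis_smul_right, fis_mul_X, ← fis_sub,
          ← smul_eq_C_mul, fis_smul_left]
      · rw [if_neg hb, if_neg hb, fis_zero_right]
  rw [Finset.sum_congr rfl fun i _ => h1 i, Finset.sum_sub_distrib,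
    Finset.sum_ite_eq' Finset.univ k, if_pos (Finset.mem_univ k), Finset.sum_comm,
    fis_H (hf k) (hP k) N hN, kap, add_mul, Finset.sum_mul]
  have h2 : ∀ b, ∑ i, ∑ a, (if τ b = c then
      fis (MvPolynomial.C (N i a) * sub (subA N) (pderiv (k, b) (P i))) (Kpol τ a b) else 0) =
      - ((∑ a, if τ b = c then fis (Kpol τ a b) (Kpol τ a b) else 0) * ev N (P k)) := by
    intro b
    rw [Finset.sum_comm, Finset.sum_mul, ← Finset.sum_neg_distrib]
    refine Finset.sum_congr rfl fun a _ => ?_
    by_cases hb : τ b = c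
    · simp only [if_pos hb]
      rw [← fis_sum_left, Z_eq hf hP h0 hrel N hN k b hb a, ← smul_eq_C_mul, ← neg_smul,
        fis_smul_left]
      ring
    · simp only [if_neg hb]
      simp
  rw [Finset.sum_congr rfl fun b _ => h2 b, Finset.sum_neg_distrib]
  ring

end AJ

/-! ### functionals -/

theorem exists_hom {H : Type} [AddCommGroup H] (x : H) (hx : ¬ IsOfFinAddOrder x) :
    ∃ μ : H →+ ℚ, μ x ≠ 0 := by
  have hinj : Function.Injective (zmultiplesHom H x) := by
    rw [injective_iff_map_eq_zero]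
    intro n hn
    by_contra h
    exact hx (isOfFinAddOrder_iff_zsmul_eq_zero.2 ⟨n, h, hn⟩)
  obtain ⟨μ, hμ⟩ := (Module.Baer.of_divisible ℚ).extension_property_addMonoidHom
    (zmultiplesHom H x) hinj (Int.castAddHom ℚ)
  refine ⟨μ, ?_⟩
  have h1 := DFunLike.congr_fun hμ 1
  simp at h1
  rw [h1]
  exact one_ne_zero

theorem map_torsion {H : Type} [AddCommGroup H] (μ : H →+ ℚ) {x : H} (hx : IsOfFinAddOrder x) :
    μ x = 0 := by
  obtain ⟨n, hn, h⟩ := isOfFinAddOrder_iff_nsmul_eq_zero.1 hx
  have h1 := congrArg μ h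
  rw [map_nsmul, map_zero, nsmul_eq_mul] at h1
  rcases mul_eq_zero.1 h1 with h2 | h2
  · exact absurd (Nat.cast_eq_zero.1 h2) hn.ne'
  · exact h2

end Pool.Agent.LibAC84
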